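import Mathlib

/-!
# MP_316f9b_lc, Q1 for every `ε` with `9/19 < ε < 1/2`

We prove that Q1 has the answer YES for every fixed `ε ∈ (9/19, 1/2)`.

Sketch.  Write `R(s)` for the diagonal Ramsey number and `θ = ε/(1-ε) ∈ (9/10, 1)`.
* Since `R(10u) ≥ 32^u`, there are infinitely many `u` with `R(9u) ≤ R(10u)^τ`, for any fixed
  `τ > 9/10` (`growth`); we fix `9/10 < τ < θ`.
* Put `s = 10u`, `t = 9u`, `m = R(s)`, `n = ⌈m^(1/(1-ε))⌉`, so that `⌊n^(1-ε)⌋ = m` and
  `r(m) = s`, and `k = ⌊n^ε⌋ ≈ m^θ`.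
* `G` is the complement of a sparse random graph `H` on `n` vertices: every `k+1` vertices span an
  edge of `H`, and every nonempty vertex set `D` has a vertex with at most `A + B|D|`
  `H`-neighbours in `D`, where `A = O(u)` and `B = O(u/k)` (`exists_H`).
* In a 2-colouring of `G` the Erdős–Szekeres recursion loses only `A + B|D|` vertices at each step.
  It is run until both sizes are at most `t`; there a greedy clique of `G` of size `R(t)` is found
  inside every set of more than `2 R(t) (A+1)` vertices (`terminal`).  The number of steps is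
  controlled by the potential `12^i (11/10)^j + 12^j (11/10)^i` (`bound`), and
  `12 (11/10)^10 < 32` shows that `n` vertices are too many for a colouring of `G` without
  monochromatic clique of size `s`.
-/

namespace Pool.Agent.Results.MP_316f9b_lc.NearHalf

/-- `S` is a clique of `G` all of whose edges have colour `b` under `c`. -/
def Mono {V : Type} (G : SimpleGraph V) (c : Sym2 V → Bool) (b : Bool) (S : Finset V) : Prop :=
  ∀ x ∈ S, ∀ y ∈ S, x ≠ y → G.Adj x y ∧ c s(x, y) = b

/-- Every 2-colouring of the edges of `G` has a monochromatic clique of size `s`. -/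
def Forces {V : Type} (G : SimpleGraph V) (s : ℕ) : Prop :=
  ∀ c : Sym2 V → Bool, ∃ b : Bool, ∃ S : Finset V, S.card = s ∧ Mono G c b S

/-- `r(m)`: the largest `r` such that every 2-colouring of the edges of the complete graph on
`m` vertices contains a monochromatic clique of size `r`. -/
noncomputable def ram (m : ℕ) : ℕ := sSup {r | Forces (⊤ : SimpleGraph (Fin m)) r}

/-- `D` has no red mono clique of size `i` and no blue one of size `j`. -/
def Free {V : Type} (G : SimpleGraph V) (c : Sym2 V → Bool) (D : Finset V) (i j : ℕ) : Prop :=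
  (∀ S ⊆ D, Mono G c true S → S.card < i) ∧ (∀ S ⊆ D, Mono G c false S → S.card < j)

/-! ### D: the random graph -/

/-- product formula -/
lemma exH_prod {E : Type*} [Fintype E] [DecidableEq E] (q : ℕ) (hq : 1 ≤ q) (z : ℝ)
    (P : Finset E) :
    ∑ f : E → Fin q, ∏ e ∈ P, (if (f e).val = 0 then z else 1) =
      (1 + (z - 1) / q) ^ P.card * (q : ℝ) ^ (Fintype.card E) := by
  have h0 : ∀ f : E → Fin q, ∏ e ∈ P, (if (f e).val = 0 then z else 1) =
      ∏ e, (if e ∈ P then (if (f e).val = 0 then z else 1) else 1) := by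
    intro f
    rw [Fintype.prod_ite_mem]
  simp_rw [h0]
  have h1 := Finset.prod_univ_sum (fun _ : E => (Finset.univ : Finset (Fin q)))
    (fun e a => (if e ∈ P then (if a.val = 0 then z else 1) else (1:ℝ)))
  rw [Fintype.piFinset_univ] at h1
  rw [← h1]
  have h2 : ∀ e : E, ∑ a : Fin q, (if e ∈ P then (if a.val = 0 then z else 1) else (1:ℝ)) =
      (q : ℝ) * (if e ∈ P then (1 + (z - 1) / q) else 1) := by
    intro e
    obtain ⟨q', rfl⟩ : ∃ q', q = q' + 1 := ⟨q - 1, by omega⟩
    by_cases he : e ∈ P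
    · simp only [he, if_true]
      rw [Fin.sum_univ_succ]
      simp
      field_simp
      ring
    · simp [he]
  simp_rw [h2]
  rw [Finset.prod_mul_distrib, Fintype.prod_ite_mem, Finset.prod_const, Finset.prod_const,
    Finset.card_univ]
  ring

/-- the ordered pairs in D -/
def exH_P {n : ℕ} (D : Finset (Fin n)) : Finset (Fin n × Fin n) :=
  (D ×ˢ D).filter (fun p => p.1 < p.2)

lemma exH_twice {n : ℕ} (D : Finset (Fin n)) (R : Fin n → Fin n → Prop) [DecidableRel R]
    (hs : ∀ x y, R x y → R y x) (hi : ∀ x, ¬ R x x) :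
    ((D ×ˢ D).filter (fun p => R p.1 p.2)).card =
      2 * ((exH_P D).filter (fun p => R p.1 p.2)).card := by
  have h1 : (D ×ˢ D).filter (fun p => R p.1 p.2) =
      ((exH_P D).filter (fun p => R p.1 p.2)) ∪
      ((D ×ˢ D).filter (fun p => p.2 < p.1 ∧ R p.1 p.2)) := by
    ext ⟨x, y⟩
    simp only [exH_P, Finset.mem_filter, Finset.mem_product, Finset.mem_union]
    constructor
    · rintro ⟨h, h'⟩
      rcases lt_trichotomy x y with g | g | g
      · exact Or.inl ⟨⟨h, g⟩, h'⟩
      · subst g; exact absurd h' (hi _)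
      · exact Or.inr ⟨h, g, h'⟩
    · rintro (⟨⟨h, -⟩, h'⟩ | ⟨h, -, h'⟩)
      · exact ⟨h, h'⟩
      · exact ⟨h, h'⟩
  have h2 : Disjoint ((exH_P D).filter (fun p => R p.1 p.2))
      ((D ×ˢ D).filter (fun p => p.2 < p.1 ∧ R p.1 p.2)) := by
    rw [Finset.disjoint_left]
    rintro ⟨x, y⟩ h h'
    simp only [exH_P, Finset.mem_filter, Finset.mem_product] at h h'
    exact absurd h.1.2 (not_lt.2 h'.2.1.le)
  have h3 : ((D ×ˢ D).filter (fun p => p.2 < p.1 ∧ R p.1 p.2)).card =
      ((exH_P D).filter (fun p => R p.1 p.2)).card := by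
    apply Finset.card_nbij' Prod.swap Prod.swap
    · rintro ⟨x, y⟩ h
      simp only [exH_P, Finset.coe_filter, Finset.mem_filter, Finset.mem_product, Set.mem_ofPred_eq,
        Prod.swap] at h ⊢
      exact ⟨⟨⟨h.1.2, h.1.1⟩, h.2.1⟩, hs _ _ h.2.2⟩
    · rintro ⟨x, y⟩ h
      simp only [exH_P, Finset.coe_filter, Finset.mem_filter, Finset.mem_product, Set.mem_ofPred_eq,
        Prod.swap] at h ⊢
      exact ⟨⟨h.1.1.2, h.1.1.1⟩, h.1.2, hs _ _ h.2⟩
    · rintro ⟨x, y⟩ _; rfl
    · rintro ⟨x, y⟩ _; rfl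
  rw [h1, Finset.card_union_of_disjoint h2, h3]
  ring

lemma exH_card {n : ℕ} (D : Finset (Fin n)) : 2 * (exH_P D).card + D.card = D.card * D.card := by
  have h := exH_twice D (fun x y => x ≠ y) (fun x y h => h.symm) (fun x h => h rfl)
  have h1 : (D ×ˢ D).filter (fun p => p.1 ≠ p.2) = D.offDiag := by
    ext ⟨x, y⟩
    simp only [Finset.mem_filter, Finset.mem_product, Finset.mem_offDiag]
    tauto
  have h2 : (exH_P D).filter (fun p => p.1 ≠ p.2) = exH_P D := by
    apply Finset.filter_true_of_mem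
    rintro ⟨x, y⟩ h
    simp only [exH_P, Finset.mem_filter] at h
    exact h.2.ne
  rw [h1, h2, Finset.offDiag_card] at h
  have h3 : D.card ≤ D.card * D.card := by nlinarith [Nat.zero_le D.card]
  omega

theorem exists_H (n q k lam : ℕ) (hq : 1 ≤ q) (hlam : 1 ≤ lam) (hn : n < 2 ^ lam)
    (hk : 4 * lam * q ≤ k) :
    ∃ H : SimpleGraph (Fin n),
      (∀ S : Finset (Fin n), k < S.card → ∃ x ∈ S, ∃ y ∈ S, H.Adj x y) ∧
      (∀ D : Finset (Fin n), D.Nonempty → ∃ v ∈ D,
        (Nat.card {w // w ∈ D ∧ H.Adj v w} : ℝ) ≤ 6 * lam + 2 / q * D.card) := by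
  classical
  have hq0 : (0 : ℝ) < q := by exact_mod_cast hq
  have he1 : (2 : ℝ) < Real.exp 1 := by linarith [Real.exp_one_gt_d9]
  have he2 : Real.exp 1 < 3 := by linarith [Real.exp_one_lt_d9]
  -- the two potentials
  set X : Finset (Fin n) → ((Fin n × Fin n) → Fin q) → ℝ := fun S f =>
    ∏ e ∈ exH_P S, (if (f e).val = 0 then 0 else 1) with hX
  set Y : Finset (Fin n) → ((Fin n × Fin n) → Fin q) → ℝ := fun D f =>
    ∏ e ∈ exH_P D, (if (f e).val = 0 then Real.exp 1 else 1) with hY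
  set W : Finset (Fin n) → ℝ := fun D => Real.exp (-((D.card : ℝ) ^ 2 / q + 3 * lam * D.card)) with hW
  set Φ : ((Fin n × Fin n) → Fin q) → ℝ := fun f =>
    ∑ S ∈ Finset.powersetCard (k + 1) Finset.univ, X S f +
      ∑ D ∈ (Finset.univ : Finset (Finset (Fin n))).erase ∅, Y D f * W D with hΦ
  have hsum : ∑ f, Φ f < ∑ f : (Fin n × Fin n) → Fin q, (1 : ℝ) := by
    have hcard : ∑ f : (Fin n × Fin n) → Fin q, (1 : ℝ) =
        (q : ℝ) ^ (Fintype.card (Fin n × Fin n)) := by
      simp
    rw [hcard]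
    set Q : ℝ := (q : ℝ) ^ (Fintype.card (Fin n × Fin n)) with hQ
    have hQ0 : 0 < Q := by positivity
    have hXs : ∀ S ∈ Finset.powersetCard (k + 1) (Finset.univ : Finset (Fin n)),
        ∑ f, X S f ≤ Real.exp (-2 * lam * (k + 1)) * Q := by
      intro S hS
      rw [hX]
      simp only
      rw [exH_prod q hq 0 (exH_P S)]
      apply mul_le_mul_of_nonneg_right _ hQ0.le
      have hSc : S.card = k + 1 := (Finset.mem_powersetCard.1 hS).2
      have h1 := exH_card S
      rw [hSc] at h1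
      have h2 : 2 * ((exH_P S).card : ℝ) = k * (k + 1) := by
        have : 2 * (exH_P S).card = k * (k + 1) := by nlinarith
        exact_mod_cast this
      have h3 : (1 + (0 - 1) / q : ℝ) ≤ Real.exp (-(1 / q)) := by
        have := Real.add_one_le_exp (-(1 / q : ℝ))
        have e : (1 + (0 - 1) / q : ℝ) = -(1 / q) + 1 := by ring
        rw [e]; exact this
      have h4 : (0 : ℝ) ≤ 1 + (0 - 1) / q := by
        have : (1 : ℝ) / q ≤ 1 := by
          rw [div_le_one hq0]; exact_mod_cast hq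
        have e : (1 + (0 - 1) / q : ℝ) = 1 - 1 / q := by ring
        rw [e]; linarith
      refine (pow_le_pow_left₀ h4 h3 _).trans ?_
      rw [← Real.exp_nat_mul]
      apply Real.exp_le_exp.2
      have h5 : (4 * lam * q : ℝ) ≤ k := by exact_mod_cast hk
      have h6 : ((exH_P S).card : ℝ) * (-(1 / q)) = -(((exH_P S).card : ℝ) / q) := by ring
      rw [h6]
      have h7 : 2 * lam * (k + 1) ≤ ((exH_P S).card : ℝ) / q := by
        rw [le_div_iff₀ hq0]
        nlinarith
      linarith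
    have hYs : ∀ D ∈ (Finset.univ : Finset (Finset (Fin n))).erase ∅,
        ∑ f, Y D f * W D ≤ (Real.exp (-3 * lam)) ^ D.card * Q := by
      intro D _
      rw [← Finset.sum_mul, hY]
      simp only
      rw [exH_prod q hq (Real.exp 1) (exH_P D), mul_right_comm]
      apply mul_le_mul_of_nonneg_right _ hQ0.le
      have h1 := exH_card D
      have h2 : 2 * ((exH_P D).card : ℝ) ≤ (D.card : ℝ) ^ 2 := by
        have : 2 * (exH_P D).card ≤ D.card ^ 2 := by nlinarith
        exact_mod_cast this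
      have h3 : (1 + (Real.exp 1 - 1) / q : ℝ) ≤ Real.exp (2 / q) := by
        have := Real.add_one_le_exp (2 / q : ℝ)
        have e : (Real.exp 1 - 1) / q ≤ 2 / q := by
          apply div_le_div_of_nonneg_right _ hq0.le
          linarith
        linarith
      have h4 : (0 : ℝ) ≤ 1 + (Real.exp 1 - 1) / q := by
        have : 0 ≤ (Real.exp 1 - 1) / q := div_nonneg (by linarith) hq0.le
        linarith
      refine (mul_le_mul_of_nonneg_right (pow_le_pow_left₀ h4 h3 _) (Real.exp_pos _).le).trans ?_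
      rw [← Real.exp_nat_mul, ← Real.exp_nat_mul, ← Real.exp_add]
      apply Real.exp_le_exp.2
      have h5 : ((exH_P D).card : ℝ) * (2 / q) ≤ (D.card : ℝ) ^ 2 / q := by
        rw [← mul_div_assoc]
        apply div_le_div_of_nonneg_right _ hq0.le
        linarith
      linarith
    have hA : ∑ f, ∑ S ∈ Finset.powersetCard (k + 1) Finset.univ, X S f ≤ 1 / 2 * Q := by
      rw [Finset.sum_comm]
      refine (Finset.sum_le_sum hXs).trans ?_
      rw [Finset.sum_const, Finset.card_powersetCard, Finset.card_univ, Fintype.card_fin,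
        nsmul_eq_mul, ← mul_assoc]
      apply mul_le_mul_of_nonneg_right _ hQ0.le
      have h1 : ((n.choose (k + 1) : ℕ) : ℝ) ≤ ((2 : ℝ) ^ lam) ^ (k + 1) := by
        have h2 : n.choose (k + 1) ≤ (2 ^ lam) ^ (k + 1) :=
          (Nat.choose_le_pow _ _).trans (Nat.pow_le_pow_left hn.le _)
        exact_mod_cast h2
      refine (mul_le_mul_of_nonneg_right h1 (Real.exp_pos _).le).trans ?_
      have h3 : ((2 : ℝ) ^ lam) ^ (k + 1) * Real.exp (-2 * lam * (k + 1)) =
          (2 * Real.exp (-2)) ^ (lam * (k + 1)) := by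
        rw [mul_pow, ← Real.exp_nat_mul, ← pow_mul]
        congr 2
        push_cast
        ring
      rw [h3]
      have h4 : 2 * Real.exp (-2) ≤ 1 / 2 := by
        have h5 : Real.exp (-2) = 1 / (Real.exp 1) ^ 2 := by
          rw [← Real.exp_nat_mul, one_div, ← Real.exp_neg]
          norm_num
        rw [h5]
        rw [mul_one_div, div_le_div_iff₀ (by positivity) (by norm_num)]
        nlinarith
      have h5 : (0 : ℝ) ≤ 2 * Real.exp (-2) := by positivity
      have h6 : lam * (k + 1) ≠ 0 := by positivity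
      exact (pow_le_of_le_one h5 (by linarith) h6).trans h4
    have hB : ∑ f, ∑ D ∈ (Finset.univ : Finset (Finset (Fin n))).erase ∅, Y D f * W D
        < 1 / 2 * Q := by
      rw [Finset.sum_comm]
      refine (Finset.sum_le_sum hYs).trans_lt ?_
      rw [← Finset.sum_mul]
      apply mul_lt_mul_of_pos_right _ hQ0
      have h1 : ∑ D ∈ (Finset.univ : Finset (Finset (Fin n))), (Real.exp (-3 * lam)) ^ D.card =
          (Real.exp (-3 * lam) + 1) ^ n := by
        have := Finset.sum_pow_mul_eq_add_pow (Real.exp (-3 * lam)) 1 (Finset.univ : Finset (Fin n))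
        simpa using this
      have h2 := Finset.sum_erase_add (Finset.univ : Finset (Finset (Fin n)))
        (fun D => (Real.exp (-3 * lam)) ^ D.card) (Finset.mem_univ ∅)
      rw [h1] at h2
      simp only [Finset.card_empty, pow_zero] at h2
      have h3 : (Real.exp (-3 * lam) + 1) ^ n ≤ Real.exp (n * Real.exp (-3 * lam)) := by
        rw [Real.exp_nat_mul]
        exact pow_le_pow_left₀ (by positivity) (Real.add_one_le_exp _) _
      have h4 : (n : ℝ) * Real.exp (-3 * lam) ≤ 1 / 4 := by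
        have h5 : (n : ℝ) ≤ 2 ^ lam := by exact_mod_cast hn.le
        refine (mul_le_mul_of_nonneg_right h5 (Real.exp_pos _).le).trans ?_
        have h6 : (2 : ℝ) ^ lam * Real.exp (-3 * lam) = (2 * Real.exp (-3)) ^ lam := by
          rw [mul_pow, ← Real.exp_nat_mul]
          congr 2
          ring
        rw [h6]
        have h7 : 2 * Real.exp (-3) ≤ 1 / 4 := by
          have h8 : Real.exp (-3) = 1 / (Real.exp 1) ^ 3 := by
            rw [← Real.exp_nat_mul, one_div, ← Real.exp_neg]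
            norm_num
          rw [h8]
          have h9 : (2 : ℝ) ^ 3 ≤ (Real.exp 1) ^ 3 := pow_le_pow_left₀ (by norm_num) he1.le 3
          rw [mul_one_div, div_le_div_iff₀ (by positivity) (by norm_num)]
          linarith
        exact (pow_le_of_le_one (by positivity) (by linarith) (by omega)).trans h7
      have h5 : Real.exp (1 / 4) < 3 / 2 := by
        have h6 : Real.exp (1 / 4) ^ 4 < (3 / 2 : ℝ) ^ 4 := by
          rw [← Real.exp_nat_mul]
          norm_num
          linarith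
        exact lt_of_pow_lt_pow_left₀ 4 (by norm_num) h6
      have h6 := Real.exp_le_exp.2 h4
      linarith
    calc ∑ f, Φ f = ∑ f, ∑ S ∈ Finset.powersetCard (k + 1) Finset.univ, X S f +
          ∑ f, ∑ D ∈ (Finset.univ : Finset (Finset (Fin n))).erase ∅, Y D f * W D := by
            rw [← Finset.sum_add_distrib]
      _ < 1 / 2 * Q + 1 / 2 * Q := by linarith
      _ = Q := by ring
  obtain ⟨f, -, hf⟩ := Finset.exists_lt_of_sum_lt hsum
  have hX0 : ∀ S, 0 ≤ X S f := by
    intro S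
    apply Finset.prod_nonneg
    intro e _
    split_ifs <;> norm_num
  have hY0 : ∀ D, 0 ≤ Y D f * W D := by
    intro D
    apply mul_nonneg _ (Real.exp_pos _).le
    apply Finset.prod_nonneg
    intro e _
    split_ifs
    · exact (Real.exp_pos _).le
    · norm_num
  have hA0 : 0 ≤ ∑ S ∈ Finset.powersetCard (k + 1) Finset.univ, X S f :=
    Finset.sum_nonneg fun S _ => hX0 S
  have hB0 : 0 ≤ ∑ D ∈ (Finset.univ : Finset (Finset (Fin n))).erase ∅, Y D f * W D :=
    Finset.sum_nonneg fun D _ => hY0 D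
  have hf' : ∑ S ∈ Finset.powersetCard (k + 1) Finset.univ, X S f +
      ∑ D ∈ (Finset.univ : Finset (Finset (Fin n))).erase ∅, Y D f * W D < 1 := hf
  let H : SimpleGraph (Fin n) :=
    { Adj := fun x y => (x < y ∧ (f (x, y)).val = 0) ∨ (y < x ∧ (f (y, x)).val = 0)
      symm := by
        constructor
        intro x y h
        exact h.symm
      loopless := by
        constructor
        rintro x (h | h)
        · exact lt_irrefl _ h.1
        · exact lt_irrefl _ h.1 }
  have hHadj : ∀ x y, H.Adj x y ↔ (x < y ∧ (f (x, y)).val = 0) ∨ (y < x ∧ (f (y, x)).val = 0) :=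
    fun x y => Iff.rfl
  refine ⟨H, ?_, ?_⟩
  · intro S hS
    obtain ⟨S', hS', hc⟩ := Finset.exists_subset_card_eq (show k + 1 ≤ S.card from hS)
    have h1 : X S' f < 1 := by
      have h2 := Finset.single_le_sum (f := fun S => X S f) (fun S _ => hX0 S)
        (Finset.mem_powersetCard.2 ⟨Finset.subset_univ S', hc⟩)
      linarith
    by_contra hcon
    push Not at hcon
    have h3 : X S' f = 1 := by
      apply Finset.prod_eq_one
      rintro ⟨x, y⟩ he
      simp only [exH_P, Finset.mem_filter, Finset.mem_product] at he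
      rw [if_neg]
      intro h0
      exact hcon x (hS' he.1.1) y (hS' he.1.2) ((hHadj x y).2 (Or.inl ⟨he.2, h0⟩))
    linarith
  · intro D hD
    by_contra hcon
    push Not at hcon
    have h1 : Y D f * W D < 1 := by
      have h2 := Finset.single_le_sum (f := fun D => Y D f * W D) (fun D _ => hY0 D)
        (Finset.mem_erase.2 ⟨hD.ne_empty, Finset.mem_univ D⟩)
      linarith
    have h2 : Y D f = Real.exp (((exH_P D).filter (fun p => (f p).val = 0)).card : ℝ) := by
      rw [hY]
      simp only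
      rw [Finset.prod_ite, Finset.prod_const, Finset.prod_const_one, mul_one, ← Real.exp_nat_mul,
        mul_one]
    rw [h2, hW] at h1
    simp only at h1
    rw [← Real.exp_add, Real.exp_lt_one_iff] at h1
    have h3 : ∀ v ∈ D, Nat.card {w // w ∈ D ∧ H.Adj v w} = ∑ w ∈ D, if H.Adj v w then 1 else 0 := by
      intro v _
      rw [← Finset.card_filter, Nat.card_eq_fintype_card, Fintype.card_subtype]
      congr 1
      ext w
      simp
    have h4 : ∑ v ∈ D, Nat.card {w // w ∈ D ∧ H.Adj v w} =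
        2 * ((exH_P D).filter (fun p => (f p).val = 0)).card := by
      rw [Finset.sum_congr rfl h3, ← Finset.sum_product', ← Finset.card_filter]
      rw [exH_twice D (fun x y => H.Adj x y) (fun x y h => h.symm) (fun x h => H.loopless.irrefl x h)]
      congr 2
      apply Finset.filter_congr
      rintro ⟨x, y⟩ he
      simp only [exH_P, Finset.mem_filter, Finset.mem_product] at he
      rw [hHadj]
      constructor
      · rintro (h | h)
        · exact h.2
        · exact absurd he.2 (not_lt.2 h.1.le)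
      · intro h
        exact Or.inl ⟨he.2, h⟩
    have h5 : ∑ v ∈ D, (6 * lam + 2 / q * D.card : ℝ) < ∑ v ∈ D, (Nat.card {w // w ∈ D ∧ H.Adj v w} : ℝ) :=
      Finset.sum_lt_sum_of_nonempty hD hcon
    rw [← Nat.cast_sum, h4, Finset.sum_const, nsmul_eq_mul] at h5
    push_cast at h5
    have h6 : (D.card : ℝ) * (6 * lam + 2 / q * D.card) =
        2 * ((D.card : ℝ) ^ 2 / q + 3 * lam * D.card) := by ring
    linarith


/-! ### E: Erdős lower bound -/

theorem el_count {V : Type} [Fintype V] [DecidableEq V] (P : Finset (Sym2 V)) (b : Bool) :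
    2 ^ P.card * (Finset.univ.filter (fun c : Sym2 V → Bool => ∀ e ∈ P, c e = b)).card =
      2 ^ (Fintype.card (Sym2 V)) := by
  have h1 : Finset.univ.filter (fun c : Sym2 V → Bool => ∀ e ∈ P, c e = b) =
      Fintype.piFinset (fun e : Sym2 V => if e ∈ P then ({b} : Finset Bool) else Finset.univ) := by
    ext c
    rw [Finset.mem_filter, Fintype.mem_piFinset]
    constructor
    · rintro ⟨_, h⟩ e
      by_cases he : e ∈ P
      · rw [if_pos he, Finset.mem_singleton]; exact h e he
      · rw [if_neg he]; exact Finset.mem_univ _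
    · intro h
      refine ⟨Finset.mem_univ _, fun e he => ?_⟩
      have := h e
      rwa [if_pos he, Finset.mem_singleton] at this
  have h2 : (2 : ℕ) ^ P.card = ∏ e : Sym2 V, (if e ∈ P then 2 else 1) := by
    rw [Finset.prod_ite_mem, Finset.univ_inter, Finset.prod_const]
  rw [h1, Fintype.card_piFinset, h2, ← Finset.prod_mul_distrib]
  have h3 : ∀ e : Sym2 V, (if e ∈ P then 2 else 1) *
      (if e ∈ P then ({b} : Finset Bool) else Finset.univ).card = 2 := by
    intro e
    split_ifs <;> simp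
  rw [Finset.prod_congr rfl (fun e _ => h3 e), Finset.prod_const, Finset.card_univ]

theorem el_fact (n : ℕ) : 2 ^ n ≤ 2 * n.factorial := by
  induction n with
  | zero => simp
  | succ n ih =>
    rw [Nat.factorial_succ, pow_succ]
    rcases Nat.eq_zero_or_pos n with h | h
    · subst h; simp
    · nlinarith [Nat.factorial_pos n]

theorem erdos_lower (u m : ℕ) (hu : 1 ≤ u) (hm : m ≤ 32 ^ u) :
    ¬ Forces (⊤ : SimpleGraph (Fin m)) (10 * u) := by
  intro hF
  let bad : Bool → Finset (Fin m) → Finset (Sym2 (Fin m) → Bool) := fun b S =>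
    Finset.univ.filter (fun c => ∀ e ∈ S.offDiag.image (fun p => s(p.1, p.2)), c e = b)
  have hcov : (Finset.univ : Finset (Sym2 (Fin m) → Bool)) ⊆
      (Finset.univ : Finset Bool).biUnion (fun b =>
        (Finset.powersetCard (10 * u) (Finset.univ : Finset (Fin m))).biUnion (fun S => bad b S)) := by
    intro c _
    obtain ⟨b, S, hS, hMono⟩ := hF c
    rw [Finset.mem_biUnion]
    refine ⟨b, Finset.mem_univ _, ?_⟩
    rw [Finset.mem_biUnion]
    refine ⟨S, Finset.mem_powersetCard.2 ⟨Finset.subset_univ _, hS⟩, ?_⟩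
    rw [Finset.mem_filter]
    refine ⟨Finset.mem_univ _, fun e he => ?_⟩
    obtain ⟨p, hp, rfl⟩ := Finset.mem_image.1 he
    rw [Finset.mem_offDiag] at hp
    exact (hMono p.1 hp.1 p.2 hp.2.1 hp.2.2).2
  have hcard : ∀ S ∈ Finset.powersetCard (10 * u) (Finset.univ : Finset (Fin m)), ∀ b,
      2 ^ ((10 * u).choose 2) * (bad b S).card = 2 ^ (Fintype.card (Sym2 (Fin m))) := by
    intro S hS b
    have hS' := (Finset.mem_powersetCard.1 hS).2
    have h1 : (S.offDiag.image (fun p => s(p.1, p.2))).card = (10 * u).choose 2 := by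
      have := Sym2.card_image_offDiag S
      rw [hS'] at this
      exact this
    rw [← h1]
    exact el_count _ b
  have hle := (Finset.card_le_card hcov).trans Finset.card_biUnion_le
  have hN : (Finset.univ : Finset (Sym2 (Fin m) → Bool)).card = 2 ^ (Fintype.card (Sym2 (Fin m))) := by
    rw [Finset.card_univ, Fintype.card_fun, Fintype.card_bool]
  rw [hN] at hle
  have h2 : 2 ^ ((10 * u).choose 2) * 2 ^ (Fintype.card (Sym2 (Fin m))) ≤
      (2 * m.choose (10 * u)) * 2 ^ (Fintype.card (Sym2 (Fin m))) := by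
    refine (Nat.mul_le_mul_left _ hle).trans ?_
    rw [Finset.mul_sum]
    have h3 : ∀ b ∈ (Finset.univ : Finset Bool), 2 ^ ((10 * u).choose 2) *
        ((Finset.powersetCard (10 * u) (Finset.univ : Finset (Fin m))).biUnion
          (fun S => bad b S)).card ≤
        m.choose (10 * u) * 2 ^ (Fintype.card (Sym2 (Fin m))) := by
      intro b _
      refine (Nat.mul_le_mul_left _ Finset.card_biUnion_le).trans ?_
      rw [Finset.mul_sum, Finset.sum_congr rfl (fun S hS => hcard S hS b), Finset.sum_const,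
        Finset.card_powersetCard, Finset.card_univ, Fintype.card_fin, smul_eq_mul]
    refine (Finset.sum_le_sum h3).trans (le_of_eq ?_)
    rw [Finset.sum_const, Finset.card_univ, Fintype.card_bool, smul_eq_mul]
    ring
  have h4 : 2 ^ ((10 * u).choose 2) ≤ 2 * m.choose (10 * u) :=
    Nat.le_of_mul_le_mul_right h2 (by positivity)
  have h5 : (10 * u).factorial * m.choose (10 * u) ≤ 2 ^ (50 * u ^ 2) := by
    rw [← Nat.descFactorial_eq_factorial_mul_choose]
    refine (Nat.descFactorial_le_pow _ _).trans ?_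
    refine (Nat.pow_le_pow_left hm _).trans (le_of_eq ?_)
    rw [show (32 : ℕ) = 2 ^ 5 by norm_num, ← pow_mul, ← pow_mul]
    congr 1
    ring
  have h6 : (10 * u).choose 2 + 5 * u = 50 * u ^ 2 := by
    rw [Nat.choose_two_right]
    obtain ⟨v, rfl⟩ : ∃ v, u = v + 1 := ⟨u - 1, by omega⟩
    have : 10 * (v + 1) * (10 * (v + 1) - 1) = (5 * (v + 1) * (10 * v + 9)) * 2 := by
      rw [show 10 * (v + 1) - 1 = 10 * v + 9 by omega]
      ring
    rw [this, Nat.mul_div_cancel _ (by norm_num)]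
    ring
  have h7 : (10 * u).factorial * 2 ^ ((10 * u).choose 2) ≤
      2 * 2 ^ (5 * u) * 2 ^ ((10 * u).choose 2) := by
    calc (10 * u).factorial * 2 ^ ((10 * u).choose 2)
        ≤ (10 * u).factorial * (2 * m.choose (10 * u)) := Nat.mul_le_mul_left _ h4
      _ = 2 * ((10 * u).factorial * m.choose (10 * u)) := by ring
      _ ≤ 2 * 2 ^ (50 * u ^ 2) := Nat.mul_le_mul_left _ h5
      _ = 2 * 2 ^ (5 * u) * 2 ^ ((10 * u).choose 2) := by
          rw [← h6, pow_add]; ring
  have h8 : (10 * u).factorial ≤ 2 * 2 ^ (5 * u) :=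
    Nat.le_of_mul_le_mul_right h7 (by positivity)
  have h9 := el_fact (10 * u)
  have h10 : (2:ℕ) ^ (10 * u) ≤ 2 ^ (5 * u + 2) := by
    calc (2:ℕ) ^ (10 * u) ≤ 2 * (10 * u).factorial := h9
      _ ≤ 2 * (2 * 2 ^ (5 * u)) := Nat.mul_le_mul_left _ h8
      _ = 2 ^ (5 * u + 2) := by rw [pow_add]; ring
  have h11 := (Nat.pow_le_pow_iff_right (by norm_num : 1 < 2)).1 h10
  omega


/-! ### E': upper bound -/

theorem forces_four_pow_ins {V : Type} [DecidableEq V] (c : Sym2 V → Bool) (b : Bool)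
    (S : Finset V) (v : V) (hS : Mono (⊤ : SimpleGraph V) c b S)
    (hv : ∀ w ∈ S, v ≠ w ∧ c s(v, w) = b) : Mono (⊤ : SimpleGraph V) c b (insert v S) := by
  intro x hx y hy hxy
  refine ⟨(SimpleGraph.top_adj x y).2 hxy, ?_⟩
  rw [Finset.mem_insert] at hx hy
  rcases hx with rfl | hx
  · rcases hy with rfl | hy
    · exact (hxy rfl).elim
    · exact (hv y hy).2
  · rcases hy with rfl | hy
    · rw [Sym2.eq_swap]
      exact (hv x hx).2
    · exact (hS x hx y hy hxy).2

theorem forces_four_pow_aux {V : Type} [DecidableEq V] (c : Sym2 V → Bool) :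
    ∀ n i j : ℕ, i + j = n → ∀ D : Finset V, 2 ^ n ≤ D.card →
      (∃ S ⊆ D, S.card = i ∧ Mono (⊤ : SimpleGraph V) c true S) ∨
      (∃ S ⊆ D, S.card = j ∧ Mono (⊤ : SimpleGraph V) c false S) := by
  have hempty : ∀ b, Mono (⊤ : SimpleGraph V) c b ∅ := by
    intro b x hx
    simp at hx
  intro n
  induction n with
  | zero =>
    intro i j hij D _
    left
    exact ⟨∅, Finset.empty_subset _, by simp; omega, hempty _⟩
  | succ n ih =>
    intro i j hij D hD
    rcases i with _ | i
    · left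
      exact ⟨∅, Finset.empty_subset _, by simp, hempty _⟩
    rcases j with _ | j
    · right
      exact ⟨∅, Finset.empty_subset _, by simp, hempty _⟩
    have hpos : 0 < 2 ^ n := by positivity
    have hDne : D.Nonempty := by
      rw [← Finset.card_pos, pow_succ] at *
      omega
    obtain ⟨v, hv⟩ := hDne
    have h1 : (D.erase v).card = D.card - 1 := Finset.card_erase_of_mem hv
    have h2 := Finset.card_filter_add_card_filter_not (s := D.erase v) (fun w => c s(v, w) = true)
    rw [pow_succ] at hD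
    rcases le_or_gt (2 ^ n) ((D.erase v).filter (fun w => c s(v, w) = true)).card with hR | hR
    · rcases ih i (j + 1) (by omega) _ hR with ⟨S, hS, hc, hm⟩ | ⟨S, hS, hc, hm⟩
      · left
        have hvS : v ∉ S := by
          intro h
          have := hS h
          simp at this
        refine ⟨insert v S, ?_, by rw [Finset.card_insert_of_notMem hvS, hc], ?_⟩
        · intro x hx
          rw [Finset.mem_insert] at hx
          rcases hx with rfl | hx
          · exact hv
          · exact Finset.mem_of_mem_erase (Finset.mem_of_mem_filter x (hS hx))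
        · apply forces_four_pow_ins c true S v hm
          intro w hw
          have := hS hw
          rw [Finset.mem_filter, Finset.mem_erase] at this
          exact ⟨this.1.1.symm, this.2⟩
      · right
        refine ⟨S, ?_, hc, hm⟩
        intro x hx
        exact Finset.mem_of_mem_erase (Finset.mem_of_mem_filter x (hS hx))
    · have hB : 2 ^ n ≤ ((D.erase v).filter (fun w => ¬ c s(v, w) = true)).card := by omega
      rcases ih (i + 1) j (by omega) _ hB with ⟨S, hS, hc, hm⟩ | ⟨S, hS, hc, hm⟩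
      · left
        refine ⟨S, ?_, hc, hm⟩
        intro x hx
        exact Finset.mem_of_mem_erase (Finset.mem_of_mem_filter x (hS hx))
      · right
        have hvS : v ∉ S := by
          intro h
          have := hS h
          simp at this
        refine ⟨insert v S, ?_, by rw [Finset.card_insert_of_notMem hvS, hc], ?_⟩
        · intro x hx
          rw [Finset.mem_insert] at hx
          rcases hx with rfl | hx
          · exact hv
          · exact Finset.mem_of_mem_erase (Finset.mem_of_mem_filter x (hS hx))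
        · apply forces_four_pow_ins c false S v hm
          intro w hw
          have := hS hw
          rw [Finset.mem_filter, Finset.mem_erase] at this
          exact ⟨this.1.1.symm, by simpa using this.2⟩

theorem forces_four_pow (k : ℕ) : Forces (⊤ : SimpleGraph (Fin (4 ^ k))) k := by
  intro c
  have h4 : (4 : ℕ) ^ k = 2 ^ (k + k) := by
    rw [pow_add, ← mul_pow]
    norm_num
  have hcard : 2 ^ (k + k) ≤ (Finset.univ : Finset (Fin (4 ^ k))).card := by
    rw [Finset.card_univ, Fintype.card_fin, h4]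
  rcases forces_four_pow_aux c (k + k) k k rfl Finset.univ hcard with ⟨S, _, hc, hm⟩ | ⟨S, _, hc, hm⟩
  · exact ⟨true, S, hc, hm⟩
  · exact ⟨false, S, hc, hm⟩


/-! ### F: growth -/

theorem growth (R : ℕ → ℕ) (hmono : Monotone R) (hlow : ∀ u, 1 ≤ u → 32 ^ u ≤ R (10 * u))
    (τ : ℝ) (hτ : 9 / 10 < τ) :
    ∀ U : ℕ, ∃ u ≥ U, (R (9 * u) : ℝ) ≤ (R (10 * u) : ℝ) ^ τ := by
  intro U
  by_contra hcon
  push Not at hcon
  have hτ0 : 0 < τ := by linarith
  obtain ⟨v, hv0, hvs⟩ : ∃ v : ℕ → ℕ, v 0 = max U 9 ∧ ∀ k, v (k + 1) = 10 * v k / 9 :=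
    ⟨fun k => Nat.rec (max U 9) (fun _ x => 10 * x / 9) k, rfl, fun _ => rfl⟩
  have hA : ∀ k, max U 9 ≤ v k ∧ ((10 / 9 : ℝ) ^ k ≤ (v k : ℝ) - 8) := by
    intro k
    induction k with
    | zero =>
      refine ⟨hv0.ge, ?_⟩
      have h1 : (9 : ℕ) ≤ v 0 := by rw [hv0]; exact le_max_right _ _
      have h2 : (9 : ℝ) ≤ (v 0 : ℝ) := by exact_mod_cast h1
      simp only [pow_zero]
      linarith
    | succ k ih =>
      obtain ⟨h1, h2⟩ := ih
      refine ⟨?_, ?_⟩
      · rw [hvs]
        omega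
      · have h3 : 10 * v k ≤ 9 * v (k + 1) + 8 := by rw [hvs]; omega
        have h4 : 10 * (v k : ℝ) ≤ 9 * (v (k + 1) : ℝ) + 8 := by exact_mod_cast h3
        rw [pow_succ]
        linarith
  have hge : ∀ k, U ≤ v k ∧ 1 ≤ v k := fun k => by
    have := (hA k).1
    omega
  have hpos : ∀ u, 1 ≤ u → (0 : ℝ) < (R (10 * u) : ℝ) := by
    intro u hu
    have h1 : 0 < R (10 * u) := lt_of_lt_of_le (by positivity) (hlow u hu)
    exact_mod_cast h1
  have hB : ∀ k, τ ^ k * Real.log (R (10 * v k)) ≤ Real.log (R (10 * v 0)) := by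
    intro k
    induction k with
    | zero => simp
    | succ k ih =>
      have h1 := hcon (v (k + 1)) (hge (k + 1)).1
      have h2 : R (9 * v (k + 1)) ≤ R (10 * v k) := hmono (by rw [hvs]; omega)
      have h3 : (R (9 * v (k + 1)) : ℝ) ≤ (R (10 * v k) : ℝ) := by exact_mod_cast h2
      have h4 := hpos (v (k + 1)) (hge (k + 1)).2
      have h5 : Real.log ((R (10 * v (k + 1)) : ℝ) ^ τ) ≤ Real.log (R (10 * v k)) :=
        Real.log_le_log (Real.rpow_pos_of_pos h4 τ) (h1.le.trans h3)
      rw [Real.log_rpow h4] at h5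
      calc τ ^ (k + 1) * Real.log (R (10 * v (k + 1)))
          = τ ^ k * (τ * Real.log (R (10 * v (k + 1)))) := by ring
        _ ≤ τ ^ k * Real.log (R (10 * v k)) := by gcongr
        _ ≤ _ := ih
  have hC : ∀ k, (v k : ℝ) * Real.log 32 ≤ Real.log (R (10 * v k)) := by
    intro k
    rw [← Real.log_pow]
    apply Real.log_le_log (by positivity)
    exact_mod_cast hlow (v k) (hge k).2
  have hlog : 0 < Real.log 32 := Real.log_pos (by norm_num)
  have h1 : (1 : ℝ) < 10 / 9 * τ := by linarith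
  obtain ⟨k, hk⟩ := pow_unbounded_of_one_lt (Real.log (R (10 * v 0)) / Real.log 32) h1
  rw [div_lt_iff₀ hlog, mul_pow] at hk
  have h2 : (10 / 9 : ℝ) ^ k ≤ (v k : ℝ) := by
    have := (hA k).2
    linarith
  have h3 : (10 / 9 : ℝ) ^ k * τ ^ k * Real.log 32 ≤ Real.log (R (10 * v 0)) := by
    calc (10 / 9 : ℝ) ^ k * τ ^ k * Real.log 32 ≤ (v k : ℝ) * τ ^ k * Real.log 32 := by gcongr
      _ = τ ^ k * ((v k : ℝ) * Real.log 32) := by ring
      _ ≤ τ ^ k * Real.log (R (10 * v k)) := by
        have := hC k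
        gcongr
      _ ≤ _ := hB k
  linarith


/-! ### H: numerics -/

theorem numerics (ε τ : ℝ) (hε1 : 9 / 19 < ε) (hε2 : ε < 1 / 2) (u R Rt : ℕ) (hu : 1 ≤ u)
    (hR : 32 ^ u ≤ R) (hR4 : R ≤ 4 ^ (10 * u)) (hRt1 : 1 ≤ Rt) (hRt : (Rt : ℝ) ≤ (R : ℝ) ^ τ)
    (hbig : 529 * (240 * (u : ℝ) + 7) < (R : ℝ) ^ (ε / (1 - ε) - τ)) :
    ∃ n q k : ℕ, ⌊(n : ℝ) ^ (1 - ε)⌋₊ = R ∧ (k : ℝ) ≤ (n : ℝ) ^ ε ∧ R ≤ n ∧
      n < 2 ^ (40 * u + 1) ∧ 4 * (40 * u + 1) * q ≤ k ∧ 528 * Rt ≤ q ∧
      528 * (240 * u + 7) * Rt * 32 ^ u < n := by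
  have hR1N : 1 ≤ R := le_trans (Nat.one_le_pow _ _ (by norm_num)) hR
  have hR1 : (1:ℝ) ≤ R := by exact_mod_cast hR1N
  have hR0 : (0:ℝ) < R := by linarith
  have hp0 : (0:ℝ) < 1 - ε := by linarith
  have hp1 : 1 - ε ≤ 1 := by linarith
  set P : ℝ := 1 / (1 - ε) with hP
  have hPp : P * (1 - ε) = 1 := by rw [hP]; field_simp
  have hP1 : 1 ≤ P := by rw [hP, le_div_iff₀ hp0]; linarith
  have hP2 : P ≤ 2 := by rw [hP, div_le_iff₀ hp0]; linarith
  set θ : ℝ := ε / (1 - ε) with hθ
  have hPθ : P = 1 + θ := by rw [hP, hθ]; field_simp; ring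
  have hεP : P * ε = θ := by rw [hP, hθ]; ring
  have hRP0 : 0 < (R:ℝ) ^ P := Real.rpow_pos_of_pos hR0 P
  set n : ℕ := ⌈(R:ℝ) ^ P⌉₊ with hn
  have hn1 : (R:ℝ) ^ P ≤ n := Nat.le_ceil _
  have hn2 : (n:ℝ) < (R:ℝ) ^ P + 1 := Nat.ceil_lt_add_one hRP0.le
  have hn0 : (0:ℝ) < n := lt_of_lt_of_le hRP0 hn1
  have hRn : (R:ℝ) ≤ n := by
    refine le_trans ?_ hn1
    have := Real.rpow_le_rpow_of_exponent_le hR1 hP1
    rwa [Real.rpow_one] at this
  have hθR : (R:ℝ) ^ θ ≤ (n:ℝ) ^ ε := by
    have h1 := Real.rpow_le_rpow hRP0.le hn1 (by linarith : (0:ℝ) ≤ ε)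
    rw [← Real.rpow_mul hR0.le, hεP] at h1
    exact h1
  have hu' : (1:ℝ) ≤ u := by exact_mod_cast hu
  have hRt' : (1:ℝ) ≤ Rt := by exact_mod_cast hRt1
  have hbig' : 529 * (240 * (u : ℝ) + 7) * Rt < (R:ℝ) ^ θ := by
    have h1 : (R:ℝ) ^ θ = (R:ℝ) ^ (θ - τ) * (R:ℝ) ^ τ := by
      rw [← Real.rpow_add hR0]; congr 1; ring
    rw [h1]
    exact mul_lt_mul hbig hRt (by linarith) (Real.rpow_pos_of_pos hR0 _).le
  have hk1 : (n:ℝ) ^ ε < (⌊(n:ℝ) ^ ε⌋₊ : ℝ) + 1 := Nat.lt_floor_add_one _
  refine ⟨n, ⌊(n:ℝ) ^ ε⌋₊ / (4 * (40 * u + 1)), ⌊(n:ℝ) ^ ε⌋₊, ?_, ?_, ?_, ?_, ?_, ?_, ?_⟩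
  · rw [Nat.floor_eq_iff (Real.rpow_pos_of_pos hn0 _).le]
    constructor
    · have h1 := Real.rpow_le_rpow hRP0.le hn1 hp0.le
      rw [← Real.rpow_mul hR0.le, hPp, Real.rpow_one] at h1
      exact h1
    · have h1 := Real.rpow_lt_rpow hn0.le hn2 hp0
      have h2 := Real.rpow_add_le_add_rpow hRP0.le (zero_le_one (α := ℝ)) hp0.le hp1
      rw [← Real.rpow_mul hR0.le, hPp, Real.rpow_one, Real.one_rpow] at h2
      exact lt_of_lt_of_le h1 h2
  · exact Nat.floor_le (Real.rpow_pos_of_pos hn0 _).le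
  · exact_mod_cast hRn
  · have h1 : n ≤ R ^ 2 := by
      rw [hn, Nat.ceil_le]
      have h2 := Real.rpow_le_rpow_of_exponent_le hR1 hP2
      push_cast
      rw [← Real.rpow_natCast]
      exact_mod_cast h2
    have h2 : R ^ 2 ≤ (4 ^ (10 * u)) ^ 2 := Nat.pow_le_pow_left hR4 2
    have h3 : (4 ^ (10 * u)) ^ 2 = 2 ^ (40 * u) := by
      rw [show (4:ℕ) = 2 ^ 2 by norm_num, ← pow_mul, ← pow_mul]
      congr 1
      ring
    have h4 : (2:ℕ) ^ (40 * u) < 2 ^ (40 * u + 1) := Nat.pow_lt_pow_right (by norm_num) (by omega)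
    omega
  · exact Nat.mul_div_le _ _
  · rw [Nat.le_div_iff_mul_le (by positivity)]
    have h1 : ((528 * Rt * (4 * (40 * u + 1)) : ℕ) : ℝ) ≤ (⌊(n:ℝ) ^ ε⌋₊ : ℝ) := by
      push_cast
      have h2 : (0:ℝ) ≤ u * Rt := by positivity
      nlinarith
    exact_mod_cast h1
  · have h1 : (32:ℝ) ^ u ≤ R := by exact_mod_cast hR
    have h32 : (0:ℝ) < (32:ℝ) ^ u := by positivity
    have h2 : (R:ℝ) * (R:ℝ) ^ θ = (R:ℝ) ^ P := by
      rw [hPθ, Real.rpow_add hR0, Real.rpow_one]
    have h3 : (32:ℝ) ^ u * (529 * (240 * (u : ℝ) + 7) * Rt) < (n:ℝ) := by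
      calc (32:ℝ) ^ u * (529 * (240 * (u : ℝ) + 7) * Rt) < (32:ℝ) ^ u * (R:ℝ) ^ θ :=
            mul_lt_mul_of_pos_left hbig' h32
        _ ≤ (R:ℝ) * (R:ℝ) ^ θ := mul_le_mul_of_nonneg_right h1 (Real.rpow_pos_of_pos hR0 _).le
        _ = (R:ℝ) ^ P := h2
        _ ≤ n := hn1
    have h4 : ((528 * (240 * u + 7) * Rt * 32 ^ u : ℕ) : ℝ) < (n : ℝ) := by
      push_cast
      refine lt_of_le_of_lt ?_ h3
      have h5 : (0:ℝ) ≤ (32:ℝ) ^ u * ((240 * (u : ℝ) + 7) * Rt) := by positivity
      nlinarith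
    exact_mod_cast h4


/-! ### generalities -/

theorem mono_subset {V : Type} {G : SimpleGraph V} {c : Sym2 V → Bool} {b : Bool}
    {S T : Finset V} (h : Mono G c b T) (hST : S ⊆ T) : Mono G c b S :=
  fun x hx y hy hxy => h x (hST hx) y (hST hy) hxy

theorem mono_empty {V : Type} (G : SimpleGraph V) (c : Sym2 V → Bool) (b : Bool) :
    Mono G c b ∅ := fun x hx => absurd hx (Finset.notMem_empty x)

theorem free_subset {V : Type} {G : SimpleGraph V} {c : Sym2 V → Bool}
    {D E : Finset V} {i j : ℕ} (h : Free G c E i j) (hDE : D ⊆ E) : Free G c D i j :=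
  ⟨fun S hS hm => h.1 S (hS.trans hDE) hm, fun S hS hm => h.2 S (hS.trans hDE) hm⟩

theorem free_mono {V : Type} {G : SimpleGraph V} {c : Sym2 V → Bool}
    {D : Finset V} {i j i' j' : ℕ} (h : Free G c D i j) (hi : i ≤ i') (hj : j ≤ j') :
    Free G c D i' j' :=
  ⟨fun S hS hm => (h.1 S hS hm).trans_le hi, fun S hS hm => (h.2 S hS hm).trans_le hj⟩

/-- smaller sizes are forced too. -/
theorem forces_down {V : Type} {G : SimpleGraph V} {s s' : ℕ} (h : Forces G s) (hs : s' ≤ s) :
    Forces G s' := by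
  intro c
  obtain ⟨b, S, hS, hm⟩ := h c
  obtain ⟨T, hT, hc⟩ := Finset.exists_subset_card_eq (hs.trans hS.ge)
  exact ⟨b, T, hc, mono_subset hm hT⟩

/-- a clique with at least `m` vertices contains what `K_m` forces. -/
theorem clique_forces {V : Type} {G : SimpleGraph V} {m s : ℕ}
    (h : Forces (⊤ : SimpleGraph (Fin m)) s) (c : Sym2 V → Bool) (T : Finset V)
    (hT : ∀ x ∈ T, ∀ y ∈ T, x ≠ y → G.Adj x y) (hm : m ≤ T.card) :
    ∃ b : Bool, ∃ S : Finset V, S ⊆ T ∧ S.card = s ∧ Mono G c b S := by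
  obtain ⟨T', hT', hc⟩ := Finset.exists_subset_card_eq hm
  let e : Fin m ≃ T' := (Fintype.equivFinOfCardEq (by simpa using hc)).symm
  obtain ⟨b, S, hS, hmono⟩ := h (fun z => c (z.map (fun i => (e i : V))))
  have hinj : Function.Injective (fun i : Fin m => (e i : V)) :=
    fun a b hab => e.injective (Subtype.ext hab)
  refine ⟨b, S.map ⟨_, hinj⟩, ?_, by simpa using hS, ?_⟩
  · intro x hx
    obtain ⟨i, _, rfl⟩ := Finset.mem_map.1 hx
    exact hT' (e i).2
  · intro x hx y hy hxy
    obtain ⟨i, hi, rfl⟩ := Finset.mem_map.1 hx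
    obtain ⟨j, hj, rfl⟩ := Finset.mem_map.1 hy
    have hij : i ≠ j := fun hij => hxy (by rw [hij])
    refine ⟨hT _ (hT' (e i).2) _ (hT' (e j).2) hxy, ?_⟩
    simpa using (hmono i hi j hj hij).2

theorem forces_up {m m' s : ℕ} (h : Forces (⊤ : SimpleGraph (Fin m)) s) (hm : m ≤ m') :
    Forces (⊤ : SimpleGraph (Fin m')) s := by
  intro c
  obtain ⟨b, S, _, hS, hmono⟩ := clique_forces (G := (⊤ : SimpleGraph (Fin m'))) h c Finset.univ
    (fun x _ y _ hxy => hxy) (by simpa using hm)
  exact ⟨b, S, hS, hmono⟩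

/-- the diagonal Ramsey number -/
noncomputable def Rn (s : ℕ) : ℕ := sInf {m | Forces (⊤ : SimpleGraph (Fin m)) s}

theorem forces_Rn (s : ℕ) : Forces (⊤ : SimpleGraph (Fin (Rn s))) s :=
  Nat.sInf_mem (s := {m | Forces (⊤ : SimpleGraph (Fin m)) s}) ⟨_, forces_four_pow s⟩

theorem not_forces_of_lt {s m : ℕ} (h : m < Rn s) : ¬ Forces (⊤ : SimpleGraph (Fin m)) s :=
  fun hf => Nat.notMem_of_lt_sInf h hf

theorem Rn_le {s m : ℕ} (h : Forces (⊤ : SimpleGraph (Fin m)) s) : Rn s ≤ m :=
  Nat.sInf_le h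

theorem Rn_mono : Monotone Rn := fun _ _ hst => Rn_le (forces_down (forces_Rn _) hst)

theorem Rn_le_four_pow (k : ℕ) : Rn k ≤ 4 ^ k := Rn_le (forces_four_pow k)

theorem le_Rn (u : ℕ) (hu : 1 ≤ u) : 32 ^ u ≤ Rn (10 * u) := by
  by_contra h
  push Not at h
  exact erdos_lower u _ hu h.le (forces_Rn _)

/-! ### G -/

/-- adding a vertex: a mono set in `S` minus a point. -/
theorem not_forces_add_one {m s : ℕ} (h : ¬ Forces (⊤ : SimpleGraph (Fin m)) s) :
    ¬ Forces (⊤ : SimpleGraph (Fin (m + 1))) (s + 1) := by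
  intro hf
  apply h
  intro c
  -- extend `c` to `Fin (m+1)`
  classical
  obtain ⟨b, S, hS, hm⟩ := hf (fun z =>
    if hz : ∃ w : Sym2 (Fin m), w.map Fin.castSucc = z then c hz.choose else true)
  have key : ∀ w : Sym2 (Fin m), (if hz : ∃ w' : Sym2 (Fin m), w'.map Fin.castSucc = w.map Fin.castSucc
      then c hz.choose else true) = c w := by
    intro w
    have hz : ∃ w' : Sym2 (Fin m), w'.map Fin.castSucc = w.map Fin.castSucc := ⟨w, rfl⟩
    rw [dif_pos hz]
    congr 1
    exact Sym2.map.injective (Fin.castSucc_injective m) hz.choose_spec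
  set S' : Finset (Fin m) := Finset.univ.filter (fun i => Fin.castSucc i ∈ S) with hS'
  have hcard : s ≤ S'.card := by
    have h1 : S ⊆ insert (Fin.last m) (S'.map Fin.castSuccEmb) := by
      intro x hx
      rcases Fin.eq_castSucc_or_eq_last x with ⟨y, rfl⟩ | rfl
      · refine Finset.mem_insert_of_mem (Finset.mem_map.2 ⟨y, ?_, rfl⟩)
        simp [hS', hx]
      · exact Finset.mem_insert_self _ _
    have h2 := Finset.card_le_card h1
    have h3 := Finset.card_insert_le (Fin.last m) (S'.map Fin.castSuccEmb)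
    rw [Finset.card_map] at h3
    omega
  obtain ⟨T, hT, hc⟩ := Finset.exists_subset_card_eq hcard
  refine ⟨b, T, hc, ?_⟩
  intro x hx y hy hxy
  refine ⟨hxy, ?_⟩
  have hx' : Fin.castSucc x ∈ S := (Finset.mem_filter.1 (hT hx)).2
  have hy' : Fin.castSucc y ∈ S := (Finset.mem_filter.1 (hT hy)).2
  have h4 := (hm _ hx' _ hy' (fun h => hxy (Fin.castSucc_injective m h))).2
  have h5 := key s(x, y)
  rw [Sym2.map_mk] at h5
  exact h5.symm.trans h4

theorem Rn_pos (s : ℕ) (hs : 1 ≤ s) : 1 ≤ Rn s := by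
  by_contra h
  have h0 : Rn s = 0 := by omega
  have hf := forces_Rn s
  rw [h0] at hf
  obtain ⟨b, S, hS, _⟩ := hf (fun _ => true)
  have : S = ∅ := Finset.eq_empty_of_isEmpty S
  rw [this] at hS
  simp at hS
  omega

theorem not_forces_succ (s : ℕ) (hs : 1 ≤ s) :
    ¬ Forces (⊤ : SimpleGraph (Fin (Rn s))) (s + 1) := by
  have h1 := Rn_pos s hs
  obtain ⟨m, hm⟩ : ∃ m, Rn s = m + 1 := ⟨Rn s - 1, by omega⟩
  rw [hm]
  exact not_forces_add_one (not_forces_of_lt (by omega))

theorem ram_Rn (s : ℕ) (hs : 1 ≤ s) : ram (Rn s) = s := by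
  have : {r | Forces (⊤ : SimpleGraph (Fin (Rn s))) r} = Set.Iic s := by
    ext r
    simp only [Set.mem_ofPred_eq, Set.mem_Iic]
    constructor
    · intro h
      by_contra hr
      push Not at hr
      exact not_forces_succ s hs (forces_down h hr)
    · exact fun h => forces_down (forces_Rn s) h
  rw [ram, this]
  exact csSup_Iic

/-! ### A, B, C -/

/-- every nonempty subset has a vertex with few `G`-non-neighbours inside it. -/
def Sparse {V : Type} (G : SimpleGraph V) (A B : ℝ) : Prop :=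
  ∀ D : Finset V, D.Nonempty → ∃ v ∈ D,
    (Nat.card {w // w ∈ D ∧ w ≠ v ∧ ¬ G.Adj v w} : ℝ) ≤ A + B * D.card

theorem card_sub {V : Type} (D : Finset V) (P : V → Prop) [DecidablePred P] :
    Nat.card {w // w ∈ D ∧ P w} = (D.filter P).card := by
  classical
  have : {w // w ∈ D ∧ P w} = {w // w ∈ D.filter P} := by
    congr 1
    ext w
    simp
  rw [this, Nat.card_eq_fintype_card, Fintype.card_coe]

theorem step {V : Type} {G : SimpleGraph V} {c : Sym2 V → Bool} {D : Finset V}
    {i j : ℕ} (h : Free G c D (i + 1) (j + 1)) (v : V) (hv : v ∈ D) :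
    ∃ D1 ⊆ D, ∃ D2 ⊆ D, Free G c D1 i (j + 1) ∧ Free G c D2 (i + 1) j ∧
      D.card ≤ 1 + Nat.card {w // w ∈ D ∧ w ≠ v ∧ ¬ G.Adj v w} + D1.card + D2.card := by
  classical
  rw [card_sub]
  have hins : ∀ (b : Bool) (S : Finset V), Mono G c b S →
      (∀ w ∈ S, G.Adj v w ∧ c s(v, w) = b) → Mono G c b (insert v S) ∧ (insert v S).card = S.card + 1 := by
    intro b S hS hw
    constructor
    · intro x hx y hy hxy
      rcases Finset.mem_insert.1 hx with rfl | hx'
      · rcases Finset.mem_insert.1 hy with rfl | hy'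
        · exact absurd rfl hxy
        · exact hw y hy'
      · rcases Finset.mem_insert.1 hy with rfl | hy'
        · have := hw x hx'
          exact ⟨this.1.symm, by rw [Sym2.eq_swap]; exact this.2⟩
        · exact hS x hx' y hy' hxy
    · apply Finset.card_insert_of_notMem
      intro hvS
      exact G.loopless.irrefl v (hw v hvS).1
  refine ⟨D.filter (fun w => G.Adj v w ∧ c s(v, w) = true), Finset.filter_subset _ _,
    D.filter (fun w => G.Adj v w ∧ c s(v, w) = false), Finset.filter_subset _ _, ?_, ?_, ?_⟩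
  · constructor
    · intro S hS hm
      obtain ⟨h1, h2⟩ := hins true S hm (fun w hw => (Finset.mem_filter.1 (hS hw)).2)
      have h3 := h.1 (insert v S) (Finset.insert_subset hv (hS.trans (Finset.filter_subset _ _))) h1
      omega
    · intro S hS hm
      exact h.2 S (hS.trans (Finset.filter_subset _ _)) hm
  · constructor
    · intro S hS hm
      exact h.1 S (hS.trans (Finset.filter_subset _ _)) hm
    · intro S hS hm
      obtain ⟨h1, h2⟩ := hins false S hm (fun w hw => (Finset.mem_filter.1 (hS hw)).2)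
      have h3 := h.2 (insert v S) (Finset.insert_subset hv (hS.trans (Finset.filter_subset _ _))) h1
      omega
  · have hcov : D ⊆ (({v} ∪ D.filter (fun w => w ≠ v ∧ ¬ G.Adj v w)) ∪
        D.filter (fun w => G.Adj v w ∧ c s(v, w) = true)) ∪
        D.filter (fun w => G.Adj v w ∧ c s(v, w) = false) := by
      intro w hw
      simp only [Finset.mem_union, Finset.mem_singleton, Finset.mem_filter]
      by_cases h1 : w = v
      · tauto
      · by_cases h2 : G.Adj v w
        · cases h3 : c s(v, w)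
          · tauto
          · tauto
        · tauto
    refine (Finset.card_le_card hcov).trans ?_
    refine (Finset.card_union_le _ _).trans ?_
    refine Nat.add_le_add_right ((Finset.card_union_le _ _).trans ?_) _
    refine Nat.add_le_add_right ((Finset.card_union_le _ _).trans ?_) _
    simp

theorem greedy_aux {V : Type} {G : SimpleGraph V} {A B : ℝ} (hB : 0 ≤ B)
    (hG : Sparse G A B) (X : ℕ) : ∀ (N : ℕ) (D : Finset V), D.card ≤ N → D.card ≤ X →
      ∃ S ⊆ D, (∀ x ∈ S, ∀ y ∈ S, x ≠ y → G.Adj x y) ∧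
      (D.card : ℝ) ≤ S.card * (A + B * X + 1) := by
  classical
  intro N
  induction N with
  | zero =>
    intro D hD _
    have : D = ∅ := Finset.card_eq_zero.1 (Nat.le_zero.1 hD)
    subst this
    exact ⟨∅, subset_rfl, by simp, by simp⟩
  | succ N ih =>
    intro D hD hX
    rcases D.eq_empty_or_nonempty with rfl | hne
    · exact ⟨∅, subset_rfl, by simp, by simp⟩
    obtain ⟨v, hv, hvD⟩ := hG D hne
    rw [card_sub] at hvD
    set D' := D.filter (fun w => G.Adj v w) with hD'
    have hcov : D ⊆ ({v} ∪ D.filter (fun w => w ≠ v ∧ ¬ G.Adj v w)) ∪ D' := by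
      intro w hw
      simp only [hD', Finset.mem_union, Finset.mem_singleton, Finset.mem_filter]
      by_cases h1 : w = v
      · tauto
      · by_cases h2 : G.Adj v w
        · tauto
        · tauto
    have hc : D.card ≤ 1 + (D.filter (fun w => w ≠ v ∧ ¬ G.Adj v w)).card + D'.card := by
      refine (Finset.card_le_card hcov).trans ?_
      refine (Finset.card_union_le _ _).trans ?_
      refine Nat.add_le_add_right ((Finset.card_union_le _ _).trans ?_) _
      simp
    have hvD' : v ∉ D' := by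
      simp [hD']
    have hlt : D'.card < D.card := by
      apply Finset.card_lt_card
      refine ⟨Finset.filter_subset _ _, fun hsub => hvD' (hsub hv)⟩
    obtain ⟨S, hS, hcl, hcard⟩ := ih D' (by omega) (by omega)
    refine ⟨insert v S, Finset.insert_subset hv (hS.trans (Finset.filter_subset _ _)), ?_, ?_⟩
    · intro x hx y hy hxy
      rcases Finset.mem_insert.1 hx with rfl | hx'
      · rcases Finset.mem_insert.1 hy with rfl | hy'
        · exact absurd rfl hxy
        · exact (Finset.mem_filter.1 (hS hy')).2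
      · rcases Finset.mem_insert.1 hy with rfl | hy'
        · exact ((Finset.mem_filter.1 (hS hx')).2).symm
        · exact hcl x hx' y hy' hxy
    · rw [Finset.card_insert_of_notMem (fun h => hvD' (hS h))]
      have h1 : (D.card : ℝ) ≤ 1 + (D.filter (fun w => w ≠ v ∧ ¬ G.Adj v w)).card + D'.card := by
        exact_mod_cast hc
      have h2 : B * (D.card : ℝ) ≤ B * X := by
        apply mul_le_mul_of_nonneg_left _ hB
        exact_mod_cast hX
      push_cast
      nlinarith

theorem greedy {V : Type} {G : SimpleGraph V} {A B : ℝ} (hB : 0 ≤ B)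
    (hG : Sparse G A B) (D : Finset V) : ∃ S ⊆ D, (∀ x ∈ S, ∀ y ∈ S, x ≠ y → G.Adj x y) ∧
      (D.card : ℝ) ≤ S.card * (A + B * D.card + 1) :=
  greedy_aux hB hG D.card D.card D le_rfl le_rfl

theorem terminal {V : Type} {G : SimpleGraph V} {A B : ℝ} (hA : 0 ≤ A) (hB : 0 ≤ B)
    (hG : Sparse G A B) (c : Sym2 V → Bool) (D : Finset V) (t m : ℕ)
    (hm : Forces (⊤ : SimpleGraph (Fin m)) t) (hBm : m * B ≤ 1 / 2)
    (h : Free G c D t t) : (D.card : ℝ) ≤ 2 * m * (A + 1) := by
  obtain ⟨S, hS, hcl, hcard⟩ := greedy hB hG D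
  have hlt : S.card < m := by
    by_contra hge
    push Not at hge
    obtain ⟨b, T, hT, hTc, hTm⟩ := clique_forces hm c S hcl hge
    cases b
    · exact absurd (h.2 T (hT.trans hS) hTm) (by omega)
    · exact absurd (h.1 T (hT.trans hS) hTm) (by omega)
  have h1 : (S.card : ℝ) ≤ m := by exact_mod_cast hlt.le
  have h2 : (0 : ℝ) ≤ A + B * D.card + 1 := by positivity
  have h3 : (D.card : ℝ) ≤ m * (A + B * D.card + 1) :=
    hcard.trans (mul_le_mul_of_nonneg_right h1 h2)
  have h4 : (m * B) * (D.card : ℝ) ≤ 1 / 2 * D.card :=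
    mul_le_mul_of_nonneg_right hBm (Nat.cast_nonneg _)
  nlinarith

theorem bound {V : Type} {G : SimpleGraph V} {A B B0 : ℝ} (hA : 0 ≤ A)
    (hB2 : B ≤ 1 / 264) (hB0 : 264 * (1 + A) ≤ B0)
    (hG : Sparse G A B) (c : Sym2 V → Bool) (t : ℕ)
    (ht : ∀ D : Finset V, Free G c D t t → (D.card : ℝ) ≤ B0)
    (N : ℕ) : ∀ (i j : ℕ), i + j ≤ N → t ≤ max i j → ∀ D : Finset V, Free G c D i j →
      (D.card : ℝ) ≤ B0 * (12 ^ i * (11 / 10) ^ j + 12 ^ j * (11 / 10) ^ i) / 12 ^ t := by
  have hB0pos : 0 < B0 := by linarith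
  -- the potential is at least `B0`
  have hpot : ∀ i j : ℕ, t ≤ max i j →
      B0 ≤ B0 * (12 ^ i * (11 / 10) ^ j + 12 ^ j * (11 / 10) ^ i) / 12 ^ t := by
    intro i j hij
    rw [le_div_iff₀ (by positivity)]
    apply mul_le_mul_of_nonneg_left _ hB0pos.le
    have h1 : (1 : ℝ) ≤ (11 / 10) ^ i := one_le_pow₀ (by norm_num)
    have h2 : (1 : ℝ) ≤ (11 / 10) ^ j := one_le_pow₀ (by norm_num)
    have h3 : (0 : ℝ) < 12 ^ i := by positivity
    have h4 : (0 : ℝ) < 12 ^ j := by positivity
    rcases le_max_iff.1 hij with h | h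
    · have h5 : (12 : ℝ) ^ t ≤ 12 ^ i := pow_le_pow_right₀ (by norm_num) h
      nlinarith [mul_le_mul_of_nonneg_left h2 h3.le, mul_le_mul_of_nonneg_left h1 h4.le]
    · have h5 : (12 : ℝ) ^ t ≤ 12 ^ j := pow_le_pow_right₀ (by norm_num) h
      nlinarith [mul_le_mul_of_nonneg_left h2 h3.le, mul_le_mul_of_nonneg_left h1 h4.le]
  induction N with
  | zero =>
    intro i j hN hij D hD
    have hi : i = 0 := by omega
    subst hi
    exact absurd (hD.1 ∅ (Finset.empty_subset _) (mono_empty _ _ _)) (by simp)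
  | succ N ih =>
    intro i j hN hij D hD
    by_cases hcase : i ≤ t ∧ j ≤ t
    · exact (ht D (free_mono hD hcase.1 hcase.2)).trans (hpot i j hij)
    rcases i with _ | i
    · exact absurd (hD.1 ∅ (Finset.empty_subset _) (mono_empty _ _ _)) (by simp)
    rcases j with _ | j
    · exact absurd (hD.2 ∅ (Finset.empty_subset _) (mono_empty _ _ _)) (by simp)
    have hP := hpot (i + 1) (j + 1) hij
    rcases D.eq_empty_or_nonempty with rfl | hne
    · simp only [Finset.card_empty, Nat.cast_zero]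
      exact hB0pos.le.trans hP
    obtain ⟨v, hv, hvD⟩ := hG D hne
    obtain ⟨D1, _, D2, _, hF1, hF2, hcard⟩ := step hD v hv
    have h1 := ih i (j + 1) (by omega) (by
      rcases le_max_iff.1 hij with h | h
      · rw [le_max_iff]; rw [not_and_or] at hcase; omega
      · rw [le_max_iff]; right; exact h) D1 hF1
    have h2 := ih (i + 1) j (by omega) (by
      rcases le_max_iff.1 hij with h | h
      · rw [le_max_iff]; left; exact h
      · rw [le_max_iff]; rw [not_and_or] at hcase; omega) D2 hF2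
    have hcard' : (D.card : ℝ) ≤ 1 + Nat.card {w // w ∈ D ∧ w ≠ v ∧ ¬ G.Adj v w} + D1.card + D2.card := by
      exact_mod_cast hcard
    set Φ := B0 * (12 ^ (i + 1) * (11 / 10) ^ (j + 1) + 12 ^ (j + 1) * (11 / 10) ^ (i + 1)) / 12 ^ t
      with hΦ
    have hsum : B0 * (12 ^ i * (11 / 10) ^ (j + 1) + 12 ^ (j + 1) * (11 / 10) ^ i) / 12 ^ t +
        B0 * (12 ^ (i + 1) * (11 / 10) ^ j + 12 ^ j * (11 / 10) ^ (i + 1)) / 12 ^ t =
        131 / 132 * Φ := by
      rw [hΦ]
      field_simp
      ring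
    have hΦpos : 0 < Φ := hB0pos.trans_le hP
    by_contra hlt
    push Not at hlt
    have h3 : (D.card : ℝ) * (1 - B) ≤ 1 + A + 131 / 132 * Φ := by
      nlinarith
    have h4 : Φ * (1 - B) < (D.card : ℝ) * (1 - B) :=
      mul_lt_mul_of_pos_right hlt (by linarith)
    nlinarith

/-! ### main -/

theorem main_u (ε τ : ℝ) (hε1 : 9 / 19 < ε) (hε2 : ε < 1 / 2) (u : ℕ) (hu : 1 ≤ u)
    (hgrow : (Rn (9 * u) : ℝ) ≤ (Rn (10 * u) : ℝ) ^ τ)
    (hbig : 529 * (240 * (u : ℝ) + 7) < (Rn (10 * u) : ℝ) ^ (ε / (1 - ε) - τ)) :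
    ∃ n ≥ Rn (10 * u), ∃ G : SimpleGraph (Fin n), (G.cliqueNum : ℝ) ≤ (n : ℝ) ^ ε ∧
      Forces G (ram ⌊(n : ℝ) ^ (1 - ε)⌋₊) := by
  classical
  obtain ⟨n, q, k, hfl, hk, hRn, hn, hkq, hq, hbig2⟩ :=
    numerics ε τ hε1 hε2 u (Rn (10 * u)) (Rn (9 * u)) hu (le_Rn u hu)
      (Rn_le_four_pow _) (Rn_pos _ (by omega)) hgrow hbig
  have hRt : 1 ≤ Rn (9 * u) := Rn_pos _ (by omega)
  have hq1 : 1 ≤ q := by omega
  obtain ⟨H, hH1, hH2⟩ := exists_H n q k (40 * u + 1) hq1 (by omega) hn hkq
  refine ⟨n, hRn, Hᶜ, ?_, ?_⟩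
  · refine le_trans ?_ hk
    obtain ⟨s, hs⟩ := (Hᶜ).exists_isNClique_cliqueNum
    rw [← hs.card_eq]
    by_contra hlt
    push Not at hlt
    have hlt' : k < s.card := by exact_mod_cast hlt
    obtain ⟨x, hx, y, hy, hxy⟩ := hH1 s hlt'
    have h1 := hs.isClique hx hy hxy.ne
    exact ((SimpleGraph.compl_adj _ _ _).1 h1).2 hxy
  · rw [hfl, ram_Rn _ (by omega)]
    intro c
    by_contra hno
    push Not at hno
    -- no mono set of size `10u`
    have hfree : Free (Hᶜ) c Finset.univ (10 * u) (10 * u) := by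
      have aux : ∀ b : Bool, ∀ S : Finset (Fin n), Mono (Hᶜ) c b S → S.card < 10 * u := by
        intro b S hm
        by_contra hge
        push Not at hge
        obtain ⟨T, hT, hTc⟩ := Finset.exists_subset_card_eq hge
        exact hno b T hTc (mono_subset hm hT)
      exact ⟨fun S _ hm => aux true S hm, fun S _ hm => aux false S hm⟩
    set A : ℝ := 6 * ((40 * u + 1 : ℕ) : ℝ) with hA
    set B : ℝ := 2 / q with hB
    have hq0 : (0 : ℝ) < q := by exact_mod_cast hq1
    have hqR : (528 : ℝ) * Rn (9 * u) ≤ q := by exact_mod_cast hq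
    have hRtR : (1 : ℝ) ≤ Rn (9 * u) := by exact_mod_cast hRt
    have hA0 : 0 ≤ A := by positivity
    have hB0 : 0 ≤ B := by positivity
    have hsp : Sparse (Hᶜ) A B := by
      intro D hD
      obtain ⟨v, hv, hvc⟩ := hH2 D hD
      refine ⟨v, hv, ?_⟩
      rw [card_sub] at hvc ⊢
      refine le_trans ?_ hvc
      have : D.filter (fun w => w ≠ v ∧ ¬ (Hᶜ).Adj v w) ⊆ D.filter (fun w => H.Adj v w) := by
        intro w hw
        obtain ⟨h1, h2, h3⟩ := Finset.mem_filter.1 hw
        refine Finset.mem_filter.2 ⟨h1, ?_⟩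
        by_contra h4
        exact h3 ((SimpleGraph.compl_adj _ _ _).2 ⟨h2.symm, h4⟩)
      exact_mod_cast Finset.card_le_card this
    have hBle : B ≤ 1 / 264 := by
      rw [hB, div_le_iff₀ hq0]
      linarith
    have hRB : (Rn (9 * u) : ℝ) * B ≤ 1 / 2 := by
      rw [hB, mul_div_assoc', div_le_iff₀ hq0]
      linarith
    set B0 : ℝ := 264 * (A + 1) * Rn (9 * u) with hB0def
    have hA1 : (0 : ℝ) ≤ A + 1 := by linarith
    have ht : ∀ D : Finset (Fin n), Free (Hᶜ) c D (9 * u) (9 * u) → (D.card : ℝ) ≤ B0 := by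
      intro D hD
      have h1 := terminal hA0 hB0 hsp c D (9 * u) (Rn (9 * u)) (forces_Rn _) hRB hD
      have h2 : 0 ≤ (A + 1) * Rn (9 * u) := by positivity
      rw [hB0def]
      nlinarith
    have hb := bound hA0 hBle (by
        rw [hB0def]
        nlinarith) hsp c (9 * u) ht (10 * u + 10 * u) (10 * u) (10 * u) le_rfl
        (by rw [max_self]; omega) Finset.univ hfree
    rw [Finset.card_univ, Fintype.card_fin] at hb
    have hnum : B0 * (12 ^ (10 * u) * (11 / 10 : ℝ) ^ (10 * u) + 12 ^ (10 * u) * (11 / 10) ^ (10 * u)) / 12 ^ (9 * u)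
        = 2 * B0 * (12 * (11 / 10) ^ 10) ^ u := by
      have h1 : (12 : ℝ) ^ (10 * u) = 12 ^ (9 * u) * 12 ^ u := by
        rw [← pow_add]; congr 1; omega
      rw [h1, mul_pow, ← pow_mul]
      field_simp
      ring
    rw [hnum] at hb
    have h32 : (12 * (11 / 10 : ℝ) ^ 10) ^ u ≤ 32 ^ u := by
      apply pow_le_pow_left₀ (by positivity)
      norm_num
    have hBpos : 0 ≤ 2 * B0 := by positivity
    have h5 := mul_le_mul_of_nonneg_left h32 hBpos
    have h6 : (528 : ℝ) * (240 * u + 7) * Rn (9 * u) * 32 ^ u < n := by exact_mod_cast hbig2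
    have h7 : 2 * B0 * (32 : ℝ) ^ u = 528 * (240 * u + 7) * Rn (9 * u) * 32 ^ u := by
      rw [hB0def, hA]
      push_cast
      ring
    linarith

/-- **Q1 has the answer YES for every `ε` with `9/19 < ε < 1/2`.** -/
theorem result (ε : ℝ) (h1 : 9 / 19 < ε) (h2 : ε < 1 / 2) :
    ∀ N : ℕ, ∃ n ≥ N, ∃ G : SimpleGraph (Fin n), (G.cliqueNum : ℝ) ≤ (n : ℝ) ^ ε ∧
      Forces G (ram ⌊(n : ℝ) ^ (1 - ε)⌋₊) := by
  intro N
  set θ : ℝ := ε / (1 - ε) with hθ
  have hp : 0 < 1 - ε := by linarith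
  have hθ9 : 9 / 10 < θ := by
    rw [hθ, lt_div_iff₀ hp]
    linarith
  set τ : ℝ := (9 / 10 + θ) / 2 with hτ
  have hτ9 : 9 / 10 < τ := by rw [hτ]; linarith
  have hδ : 0 < θ - τ := by rw [hτ]; linarith
  -- the linear function is eventually below the exponential
  have hbig : ∀ᶠ u : ℕ in Filter.atTop, 529 * (240 * (u : ℝ) + 7) < ((32 : ℝ) ^ (θ - τ)) ^ u := by
    have hgt : (1 : ℝ) < (32 : ℝ) ^ (θ - τ) := Real.one_lt_rpow (by norm_num) hδ
    have h3 := tendsto_pow_const_div_const_pow_of_one_lt 1 hgt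
    have h4 := tendsto_pow_const_div_const_pow_of_one_lt 0 hgt
    have h5 := (h3.const_mul (529 * 240)).add (h4.const_mul (529 * 7))
    have h6 := (h5.eventually (gt_mem_nhds (show (529 * 240) * (0 : ℝ) + (529 * 7) * 0 < 1 by norm_num)))
    refine h6.mono fun u hu => ?_
    have hpos : (0 : ℝ) < ((32 : ℝ) ^ (θ - τ)) ^ u := by positivity
    rw [pow_one, pow_zero, mul_div_assoc', mul_div_assoc', ← add_div, div_lt_one hpos] at hu
    linarith
  obtain ⟨U, hU⟩ := Filter.eventually_atTop.1 hbig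
  obtain ⟨u, huU, hgrow⟩ := growth Rn Rn_mono le_Rn τ hτ9 (max (max U N) 1)
  have hu1 : 1 ≤ u := (le_max_right _ _).trans huU
  have huU' : U ≤ u := ((le_max_left _ _).trans (le_max_left _ _)).trans huU
  have huN : N ≤ u := ((le_max_right _ _).trans (le_max_left _ _)).trans huU
  have hR : (32 : ℝ) ^ u ≤ Rn (10 * u) := by exact_mod_cast le_Rn u hu1
  have h7 : 529 * (240 * (u : ℝ) + 7) < (Rn (10 * u) : ℝ) ^ (ε / (1 - ε) - τ) := by
    refine (hU u huU').trans_le ?_
    rw [← Real.rpow_natCast, ← Real.rpow_mul (by norm_num), mul_comm, Real.rpow_mul (by norm_num),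
      Real.rpow_natCast]
    exact Real.rpow_le_rpow (by positivity) hR hδ.le
  obtain ⟨n, hn, hG⟩ := main_u ε τ h1 h2 u hu1 hgrow h7
  refine ⟨n, ?_, hG⟩
  have h8 : u < 32 ^ u := Nat.lt_pow_self (by norm_num)
  have h9 := le_Rn u hu1
  omega

end Pool.Agent.Results.MP_316f9b_lc.NearHalf
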